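import Pool.Agent.W555.Ex4

/-!
A complete, properly embedded, biharmonic, non-minimal hypersurface of a complete Riemannian
manifold of nonpositive sectional curvature.

Ambient manifold: `N = ℝ⁵` with coordinates `(t, r, y)`, `y ∈ ℝ³`, and the metric
`dt² + f(t, r)² (dr² + W(r)² |dy|²)`, where `f = cosh t - H(r) sinh t`, `H = r / (4 √(1 + r²))`,
`W = √(1 + r²) exp (2 r² / 3 + 17 r⁴ / 48)`. The hypersurface is `t = 0`; it is umbilical with mean
curvature `H`.
-/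

set_option autoImplicit false

namespace Pool.Agent.Results.MP_44343f_gt.CompleteBiharmonic

open scoped ContDiff Topology
open Pool.Agent.W555.RG Pool.Agent.W555.Ex

theorem isComplete_g : D0.g.IsComplete := by
  refine RMetric.isComplete_of_bounds D0.g (c := 1) one_pos ?_ (fun x => 1 + D0.W x.1 ^ 2) ?_ ?_ ?_
  · intro x v
    rw [Dat.g_form, real_inner_self_eq_norm_sq]
    have hW := D0.one_le x.1
    have h1 : ‖v‖ ^ 2 ≤ v.1 ^ 2 + ‖v.2‖ ^ 2 := by
      rw [Prod.norm_def]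
      rcases max_choice ‖v.1‖ ‖v.2‖ with h | h
      · rw [h, Real.norm_eq_abs, sq_abs]; nlinarith [sq_nonneg ‖v.2‖]
      · rw [h]; nlinarith [sq_nonneg v.1]
    have h2 : ‖v.2‖ ^ 2 ≤ D0.W x.1 ^ 2 * ‖v.2‖ ^ 2 := by
      have : 1 ≤ D0.W x.1 ^ 2 := one_le_pow₀ hW
      nlinarith [sq_nonneg ‖v.2‖]
    nlinarith
  · exact continuous_const.add ((D0.sW.continuous.comp continuous_fst).pow 2)
  · intro x v
    rw [Dat.g_form, real_inner_self_eq_norm_sq]
    have h1 : |v.1| ≤ ‖v‖ := norm_fst_le v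
    have h2 : ‖v.2‖ ≤ ‖v‖ := norm_snd_le v
    have h1' : v.1 ^ 2 ≤ ‖v‖ ^ 2 := by
      rw [← sq_abs]; exact pow_le_pow_left₀ (abs_nonneg _) h1 2
    have h2' : ‖v.2‖ ^ 2 ≤ ‖v‖ ^ 2 := pow_le_pow_left₀ (norm_nonneg _) h2 2
    nlinarith [mul_le_mul_of_nonneg_left h2' (sq_nonneg (D0.W x.1))]
  · intro γ hγ
    have hd : Continuous (deriv γ) := hγ.continuous_deriv le_rfl
    have hc := hγ.continuous
    simp only [Dat.g_form]
    have hW : Continuous fun s => D0.W (γ s).1 := D0.sW.continuous.comp (continuous_fst.comp hc)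
    have h1 : Continuous fun s => (deriv γ s).1 := continuous_fst.comp hd
    have h2 : Continuous fun s => (deriv γ s).2 := continuous_snd.comp hd
    exact (h1.mul h1).add ((hW.pow 2).mul (h2.inner h2))

theorem isComplete_h : D0.h.IsComplete := by
  refine RMetric.isComplete_of_bounds D0.h (c := 3 / 4) (by norm_num) ?_
    (fun x => 1 + D0.f x ^ 2 * (1 + D0.W x.2.1 ^ 2)) ?_ ?_ ?_
  · intro x v
    rw [Dat.h_form, real_inner_self_eq_norm_sq]
    have hW := D0.one_le x.2.1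
    have hf := D0.f_pos' x
    have h1 : ‖v‖ ^ 2 ≤ v.1 ^ 2 + (v.2.1 ^ 2 + ‖v.2.2‖ ^ 2) := by
      rw [Prod.norm_def, Prod.norm_def]
      rcases max_choice ‖v.1‖ (max ‖v.2.1‖ ‖v.2.2‖) with h | h
      · rw [h, Real.norm_eq_abs, sq_abs]; nlinarith [sq_nonneg ‖v.2.2‖, sq_nonneg v.2.1]
      · rw [h]
        rcases max_choice ‖v.2.1‖ ‖v.2.2‖ with h | h
        · rw [h, Real.norm_eq_abs, sq_abs]; nlinarith [sq_nonneg ‖v.2.2‖, sq_nonneg v.1]
        · rw [h]; nlinarith [sq_nonneg v.1, sq_nonneg v.2.1]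
    have h2 : ‖v.2.2‖ ^ 2 ≤ D0.W x.2.1 ^ 2 * ‖v.2.2‖ ^ 2 := by
      have : 1 ≤ D0.W x.2.1 ^ 2 := one_le_pow₀ hW
      nlinarith [sq_nonneg ‖v.2.2‖]
    have h3 : (3 / 4) ^ 2 ≤ D0.f x ^ 2 := pow_le_pow_left₀ (by norm_num) hf 2
    have h4 : (3 / 4) ^ 2 * (v.2.1 ^ 2 + ‖v.2.2‖ ^ 2) ≤
        D0.f x ^ 2 * (v.2.1 * v.2.1 + D0.W x.2.1 ^ 2 * ‖v.2.2‖ ^ 2) := by
      apply mul_le_mul h3 _ (by positivity) (by positivity)
      nlinarith
    nlinarith [sq_nonneg v.1]
  · exact continuous_const.add ((D0.contDiff_f.continuous.pow 2).mul (continuous_const.add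
      ((D0.sW.continuous.comp (continuous_fst.comp continuous_snd)).pow 2)))
  · intro x v
    rw [Dat.h_form, real_inner_self_eq_norm_sq]
    have h1 : |v.1| ≤ ‖v‖ := norm_fst_le v
    have h2 : ‖v.2‖ ≤ ‖v‖ := norm_snd_le v
    have h3 : |v.2.1| ≤ ‖v‖ := (norm_fst_le v.2).trans h2
    have h4 : ‖v.2.2‖ ≤ ‖v‖ := (norm_snd_le v.2).trans h2
    have h1' : v.1 ^ 2 ≤ ‖v‖ ^ 2 := by
      rw [← sq_abs]; exact pow_le_pow_left₀ (abs_nonneg _) h1 2
    have h3' : v.2.1 ^ 2 ≤ ‖v‖ ^ 2 := by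
      rw [← sq_abs]; exact pow_le_pow_left₀ (abs_nonneg _) h3 2
    have h4' : ‖v.2.2‖ ^ 2 ≤ ‖v‖ ^ 2 := pow_le_pow_left₀ (norm_nonneg _) h4 2
    have h5 : v.2.1 * v.2.1 + D0.W x.2.1 ^ 2 * ‖v.2.2‖ ^ 2 ≤ (1 + D0.W x.2.1 ^ 2) * ‖v‖ ^ 2 := by
      nlinarith [mul_le_mul_of_nonneg_left h4' (sq_nonneg (D0.W x.2.1))]
    nlinarith [mul_le_mul_of_nonneg_left h5 (sq_nonneg (D0.f x))]
  · intro γ hγ
    have hd : Continuous (deriv γ) := hγ.continuous_deriv le_rfl
    have hc := hγ.continuous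
    simp only [Dat.h_form]
    have hW : Continuous fun s => D0.W (γ s).2.1 :=
      D0.sW.continuous.comp (continuous_fst.comp (continuous_snd.comp hc))
    have hf : Continuous fun s => D0.f (γ s) := D0.contDiff_f.continuous.comp hc
    have h1 : Continuous fun s => (deriv γ s).1 := continuous_fst.comp hd
    have h2 : Continuous fun s => (deriv γ s).2.1 := continuous_fst.comp (continuous_snd.comp hd)
    have h3 : Continuous fun s => (deriv γ s).2.2 := continuous_snd.comp (continuous_snd.comp hd)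
    exact (h1.mul h1).add ((hf.pow 2).mul ((h2.mul h2).add ((hW.pow 2).mul (h3.inner h3))))

theorem isClosedEmbedding_φ : Topology.IsClosedEmbedding Dat.φ := by
  refine ⟨isEmbedding_prodMkRight (0 : ℝ), ?_⟩
  have : Set.range Dat.φ = {x : N5 | x.1 = 0} := by
    ext x
    constructor
    · rintro ⟨y, rfl⟩; rfl
    · intro hx
      exact ⟨x.2, Prod.ext (Eq.symm hx) rfl⟩
  rw [this]
  exact isClosed_eq continuous_fst continuous_const

/-- **Negative answer.** There are a complete Riemannian metric `h` of nonpositive sectional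
curvature on `N = ℝ × ℝ × ℝ³ ≅ ℝ⁵`, a complete Riemannian metric `g` on `M = ℝ × ℝ³ ≅ ℝ⁴`, and a
smooth isometric immersion `φ : (M, g) → (N, h)`, which is even a closed embedding, such that `φ` is
biharmonic (its bitension field vanishes identically) but not minimal (its tension field
`τ(φ) = 4 H`, `H` the mean curvature vector, is not identically zero). -/
theorem result :
    ∃ (h : RMetric (ℝ × ℝ × EuclideanSpace ℝ (Fin 3))) (g : RMetric (ℝ × EuclideanSpace ℝ (Fin 3)))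
      (φ : ℝ × EuclideanSpace ℝ (Fin 3) → ℝ × ℝ × EuclideanSpace ℝ (Fin 3)),
      h.Nonpos ∧ h.IsComplete ∧ g.IsComplete ∧ IsIsometricImmersion g h φ ∧
      Topology.IsClosedEmbedding φ ∧ (∀ x, bitension g h φ x = 0) ∧ ∃ x, tension g h φ x ≠ 0 := by
  refine ⟨D0.h, D0.g, Dat.φ, D0.nonpos, isComplete_h, isComplete_g, D0.isometric,
    isClosedEmbedding_φ, D0.bitension_φ, ((1 : ℝ), 0), ?_⟩
  rw [D0.tension_φ]
  intro h
  have h1 : 4 * ((1 : ℝ) / (4 * rt 1)) = 0 := congrArg Prod.fst h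
  have h2 := rt_pos 1
  have h3 : 0 < 4 * ((1 : ℝ) / (4 * rt 1)) := by positivity
  exact absurd h1 h3.ne'

end Pool.Agent.Results.MP_44343f_gt.CompleteBiharmonic
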